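import Pool.Agent.helper33.CVX.Spec

/-! # Project CVX, row MNT: monotonicity of the dimensions -/

set_option autoImplicit false

namespace Pool.Agent.CVX

open MvPolynomial

/-- the exponent of the monomial `∏ x_{i, a i} ^ (u i)` -/
noncomputable def MNT_exp {ι : Type} [Fintype ι] (n u : ι → ℕ) (a : ∀ i, Fin (n i + 1)) : Vr n →₀ ℕ :=
  ∑ i, Finsupp.single (⟨i, a i⟩ : Vr n) (u i)

theorem MNT_mdeg {ι : Type} [Fintype ι] [DecidableEq ι] (n u : ι → ℕ) (a : ∀ i, Fin (n i + 1)) (i : ι) :
    mdeg n (MNT_exp n u a) i = u i := by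
  unfold mdeg MNT_exp
  have h1 : ∀ b : Fin (n i + 1), (∑ j, Finsupp.single (⟨j, a j⟩ : Vr n) (u j)) (⟨i, b⟩ : Vr n) =
      if b = a i then u i else 0 := by
    intro b
    rw [Finsupp.finsetSum_apply, Finset.sum_eq_single i]
    · by_cases h : b = a i
      · subst h
        rw [if_pos rfl, Finsupp.single_eq_same]
      · rw [if_neg h, Finsupp.single_apply, if_neg]
        intro h2
        exact h (eq_of_heq (Sigma.mk.inj h2).2).symm
    · intro j _ hj
      rw [Finsupp.single_apply, if_neg]
      intro h2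
      exact hj (Sigma.mk.inj h2).1
    · intro h
      exact absurd (Finset.mem_univ i) h
  rw [Finset.sum_congr rfl fun b _ => h1 b]
  simp

/-- multiplication by a function -/
noncomputable def MNT_mul {Z : Type} (w : Z → ℂ) : (Z → ℂ) →ₗ[ℂ] (Z → ℂ) where
  toFun φ z := φ z * w z
  map_add' φ ψ := by
    funext z
    simp [add_mul]
  map_smul' c φ := by
    funext z
    simp [mul_assoc]

theorem MNT (hFDM : FDM_stmt) (hMUL : MUL_stmt) : MNT_stmt := by
  intro ι _ _ n Z hZ v v' hv
  classical
  have hmem : ∀ (a : ∀ i, Fin (n i + 1)), ∀ φ ∈ (Sv n v).map (ev n Z),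
      MNT_mul (fun z : Z => eval z.1 (monomial (MNT_exp n (fun i => v' i - v i) a) (1 : ℂ))) φ ∈
        (Sv n v').map (ev n Z) := by
    intro a φ hφ
    obtain ⟨P, hP, rfl⟩ := Submodule.mem_map.1 hφ
    refine Submodule.mem_map.2 ⟨P * monomial (MNT_exp n (fun i => v' i - v i) a) (1 : ℂ), ?_, ?_⟩
    · have h1 : MHom n (fun i => v' i - v i) (monomial (MNT_exp n (fun i => v' i - v i) a) (1 : ℂ)) := by
        intro m hm i
        rw [support_monomial, if_neg one_ne_zero, Finset.mem_singleton] at hm
        rw [hm]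
        exact MNT_mdeg n _ a i
      have h2 := hMUL ι n v (fun i => v' i - v i) P _ hP h1
      have h3 : (fun l => v l + (v' l - v l)) = v' := by
        funext l
        have h4 : v l ≤ v' l := hv l
        show v l + (v' l - v l) = v' l
        omega
      rw [h3] at h2
      exact h2
    · funext z
      show eval z.1 (P * _) = eval z.1 P * eval z.1 _
      rw [map_mul]
  let Φ : (Sv n v).map (ev n Z) →ₗ[ℂ] ((a : ∀ i, Fin (n i + 1)) → (Sv n v').map (ev n Z)) :=
    LinearMap.pi fun a => LinearMap.restrict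
      (MNT_mul (fun z : Z => eval z.1 (monomial (MNT_exp n (fun i => v' i - v i) a) (1 : ℂ)))) (hmem a)
  have hinj : Function.Injective Φ := by
    rw [injective_iff_map_eq_zero]
    intro φ hφ
    apply Subtype.ext
    funext z
    have hz := hZ z.1 z.2
    choose a ha using hz
    have h1 := congrFun hφ a
    have h2 := congrFun (congrArg Subtype.val h1) z
    have h3 : φ.1 z * eval z.1 (monomial (MNT_exp n (fun i => v' i - v i) a) (1 : ℂ)) = 0 := h2
    have h4 : eval z.1 (monomial (MNT_exp n (fun i => v' i - v i) a) (1 : ℂ)) ≠ 0 := by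
      rw [eval_monomial, one_mul]
      unfold MNT_exp
      rw [Finsupp.prod]
      refine Finset.prod_ne_zero_iff.2 fun x hx => pow_ne_zero _ ?_
      have h5 : x ∈ (∑ i, Finsupp.single (⟨i, a i⟩ : Vr n) (v' i - v i)).support := hx
      have h6 := Finsupp.support_finsetSum h5
      rw [Finset.mem_biUnion] at h6
      obtain ⟨i, _, hi⟩ := h6
      have h7 := Finsupp.support_single_subset hi
      rw [Finset.mem_singleton] at h7
      rw [h7]
      exact ha i
    rcases mul_eq_zero.1 h3 with h | h
    · exact h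
    · exact absurd h h4
  have hf1 : Module.Finite ℂ (Sv n v') := hFDM ι n v'
  have hf2 : Module.Finite ℂ ((Sv n v').map (ev n Z)) := Module.Finite.map _ _
  have h8 := LinearMap.finrank_le_finrank_of_injective hinj
  rw [Module.finrank_pi_fintype, Finset.sum_const, Finset.card_univ, Fintype.card_pi, smul_eq_mul] at h8
  simp only [Fintype.card_fin] at h8
  exact h8

end Pool.Agent.CVX
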